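import Mathlib
set_option autoImplicit false

/-!
# Coordinate projections are quasi measure preserving
-/

namespace Pool.Agent.N618.PD
open MeasureTheory

theorem pull (s k : ℕ) (f : Fin k → Fin s) (hf : Function.Injective f) (Q : (Fin k → ℝ) → Prop)
    (h : ∀ᵐ β : Fin k → ℝ, Q β) : ∀ᵐ α : Fin s → ℝ, Q (fun i => α (f i)) := by
  classical
  obtain ⟨p, hp⟩ : ∃ p : Fin s → Prop, ∀ x, p x ↔ x ∈ Set.range f := ⟨_, fun _ => Iff.rfl⟩
  have hfp : ∀ i, p (f i) := fun i => (hp _).2 ⟨i, rfl⟩
  let e : Fin k ≃ {x // p x} := Equiv.ofBijective (fun i => ⟨f i, hfp i⟩) (by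
    constructor
    · intro i j hij
      exact hf (congrArg Subtype.val hij)
    · rintro ⟨x, hx⟩
      obtain ⟨i, hi⟩ := (hp x).1 hx
      exact ⟨i, Subtype.ext hi⟩)
  have h1 : MeasurePreserving (MeasurableEquiv.piEquivPiSubtypeProd (fun _ : Fin s => ℝ) p) :=
    volume_preserving_piEquivPiSubtypeProd _ _
  have h2 : Measure.QuasiMeasurePreserving
      (Prod.fst : ({x // p x} → ℝ) × ({x // ¬ p x} → ℝ) →
        ({x // p x} → ℝ)) volume volume :=
    Measure.quasiMeasurePreserving_fst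
  have h3 : MeasurePreserving (MeasurableEquiv.piCongrLeft (fun _ : {x // p x} => ℝ) e).symm :=
    (volume_measurePreserving_piCongrLeft (fun _ : {x // p x} => ℝ) e).symm
  have h4 := (h3.quasiMeasurePreserving.comp (h2.comp h1.quasiMeasurePreserving)).ae h
  filter_upwards [h4] with α hα
  exact hα

end Pool.Agent.N618.PD
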