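import Mathlib
import Pool.Agent.N604.MW.Stm6

/-!
# Project KW, DMV: the mean value of the exponential sum
-/

set_option autoImplicit false

namespace Pool.Agent.N618.KWDmv

open Finset MeasureTheory Pool.Agent.N604.MW

theorem norm_e (a : ℝ) : ‖e a‖ = 1 := by
  unfold e
  have : (2 * Real.pi * a * Complex.I : ℂ) = ((2 * Real.pi * a : ℝ) : ℂ) * Complex.I := by
    push_cast
    ring
  rw [this, Complex.norm_exp_ofReal_mul_I]

theorem conj_e (a : ℝ) : (starRingEnd ℂ) (e a) = e (-a) := by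
  unfold e
  rw [← Complex.exp_conj]
  congr 1
  rw [map_mul, map_mul, map_mul, Complex.conj_I, Complex.conj_ofReal, Complex.conj_ofReal,
    map_ofNat]
  push_cast
  ring

theorem e_add (a b : ℝ) : e (a + b) = e a * e b := by
  unfold e
  rw [← Complex.exp_add]
  congr 1
  push_cast
  ring

theorem e_sum {ι : Type} (s : Finset ι) (f : ι → ℝ) : e (∑ i ∈ s, f i) = ∏ i ∈ s, e (f i) := by
  unfold e
  rw [← Complex.exp_sum]
  congr 1
  push_cast
  rw [Finset.mul_sum, Finset.sum_mul]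

theorem cont_e (s : ℝ) : Continuous fun a : ℝ => e (a * s) := by
  unfold e
  fun_prop

instance : IsProbabilityMeasure G1 := by
  unfold G1
  infer_instance

theorem int_e (s : ℝ) : ∫ a, e (a * s) ∂G1 = ((Real.exp (-(2 * Real.pi ^ 2 * s ^ 2)) : ℝ) : ℂ) := by
  have := ProbabilityTheory.charFun_gaussianReal (μ := 0) (v := 1) (2 * Real.pi * s)
  rw [MeasureTheory.charFun_apply_real] at this
  have h1 : ∀ a : ℝ, e (a * s) =
      Complex.exp (((2 * Real.pi * s : ℝ) : ℂ) * ((a : ℝ) : ℂ) * Complex.I) := by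
    intro a
    unfold e
    congr 1
    push_cast
    ring
  simp_rw [h1]
  unfold G1
  rw [this, Complex.ofReal_exp]
  congr 1
  push_cast
  ring

theorem integrable_e (s : ℝ) : Integrable (fun a : ℝ => e (a * s)) G1 := by
  refine Integrable.mono' (integrable_const (1 : ℝ)) (cont_e s).aestronglyMeasurable ?_
  exact Filter.Eventually.of_forall fun a => (norm_e _).le

theorem expand (m k X : ℕ) (y a : ℝ) :
    ((‖∑ x ∈ Finset.Icc X (2 * X), e (a * y * (x : ℝ) ^ k)‖ ^ (2 * m) : ℝ) : ℂ) =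
      ∑ p ∈ Fintype.piFinset (fun _ : Fin m => Finset.Icc X (2 * X) ×ˢ Finset.Icc X (2 * X)),
        e (a * (y * ∑ i, (((p i).1 : ℝ) ^ k - ((p i).2 : ℝ) ^ k))) := by
  set S := ∑ x ∈ Finset.Icc X (2 * X), e (a * y * (x : ℝ) ^ k) with hS
  have h1 : ((‖S‖ ^ (2 * m) : ℝ) : ℂ) = (S * (starRingEnd ℂ) S) ^ m := by
    rw [Complex.mul_conj, Complex.normSq_eq_norm_sq, ← Complex.ofReal_pow, pow_mul]
  have h2 : S * (starRingEnd ℂ) S = ∑ q ∈ Finset.Icc X (2 * X) ×ˢ Finset.Icc X (2 * X),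
      e (a * y * ((q.1 : ℝ) ^ k - (q.2 : ℝ) ^ k)) := by
    rw [hS, map_sum, Finset.sum_mul_sum, Finset.sum_product]
    refine Finset.sum_congr rfl fun i _ => Finset.sum_congr rfl fun j _ => ?_
    rw [conj_e, ← e_add]
    congr 1
    ring
  rw [h1, h2]
  have h3 := Finset.prod_univ_sum (fun _ : Fin m => Finset.Icc X (2 * X) ×ˢ Finset.Icc X (2 * X))
    (fun _ q => e (a * y * ((q.1 : ℝ) ^ k - (q.2 : ℝ) ^ k)))
  rw [Finset.prod_const, Finset.card_univ, Fintype.card_fin] at h3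
  rw [h3]
  refine Finset.sum_congr rfl fun p _ => ?_
  rw [← e_sum]
  congr 1
  rw [← Finset.mul_sum]
  ring

theorem md_eq (m k X : ℕ) (y : ℝ) : MD m k X y =
      ∑ p ∈ Fintype.piFinset (fun _ : Fin m => Finset.Icc X (2 * X) ×ˢ Finset.Icc X (2 * X)),
        Real.exp (-(2 * Real.pi ^ 2 * (y * ∑ i, (((p i).1 : ℝ) ^ k - ((p i).2 : ℝ) ^ k)) ^ 2)) := by
  apply Complex.ofReal_injective
  unfold MD
  rw [← integral_complex_ofReal]
  simp_rw [expand]
  rw [integral_finsetSum _ fun p _ => integrable_e _, Complex.ofReal_sum]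
  exact Finset.sum_congr rfl fun p _ => int_e _

theorem md_mono (m k X : ℕ) (y y0 : ℝ) (h0 : 0 ≤ y0) (h : y0 ≤ |y|) :
    MD m k X y ≤ MD m k X y0 := by
  rw [md_eq, md_eq]
  refine Finset.sum_le_sum fun p _ => Real.exp_le_exp.2 (neg_le_neg ?_)
  have h1 : y0 ^ 2 ≤ y ^ 2 := by
    rw [← sq_abs y]
    exact pow_le_pow_left₀ h0 h 2
  rw [mul_pow, mul_pow]
  have h2 : (0 : ℝ) ≤ (∑ i, (((p i).1 : ℝ) ^ k - ((p i).2 : ℝ) ^ k)) ^ 2 := sq_nonneg _
  have h3 : (0 : ℝ) ≤ 2 * Real.pi ^ 2 := by positivity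
  exact mul_le_mul_of_nonneg_left (mul_le_mul_of_nonneg_right h1 h2) h3

/-- the integral of `1 / (1 + (a / a0) ^ 2)` -/
theorem int_cauchy (a0 : ℝ) (h0 : 0 < a0) :
    ∫ a, (1 + (a / a0) ^ 2)⁻¹ ∂G1 ≤ Real.pi * a0 := by
  have hc := integrable_inv_one_add_sq
  have hc' : Integrable fun a : ℝ => (1 + (a / a0) ^ 2)⁻¹ := hc.comp_div h0.ne'
  unfold G1
  rw [ProbabilityTheory.integral_gaussianReal_eq_integral_smul one_ne_zero]
  have h1 : ∫ a : ℝ, (1 + (a / a0) ^ 2)⁻¹ = Real.pi * a0 := by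
    have h2 := Measure.integral_comp_div (fun x : ℝ => (1 + x ^ 2)⁻¹) a0
    rw [h2, abs_of_pos h0, integral_univ_inv_one_add_sq, smul_eq_mul, mul_comm]
  rw [← h1]
  refine integral_mono_of_nonneg ?_ hc' ?_
  · refine Filter.Eventually.of_forall fun a => ?_
    exact smul_nonneg (ProbabilityTheory.gaussianPDFReal_nonneg _ _ _) (by positivity)
  · refine Filter.Eventually.of_forall fun a => ?_
    show ProbabilityTheory.gaussianPDFReal 0 1 a • (1 + (a / a0) ^ 2)⁻¹ ≤ (1 + (a / a0) ^ 2)⁻¹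
    rw [smul_eq_mul]
    have h3 : ProbabilityTheory.gaussianPDFReal 0 1 a ≤ 1 := by
      rw [ProbabilityTheory.gaussianPDFReal]
      have h4 : Real.exp (-(a - 0) ^ 2 / (2 * ((1 : NNReal) : ℝ))) ≤ 1 := by
        rw [Real.exp_le_one_iff]
        have : (0 : ℝ) ≤ (a - 0) ^ 2 := sq_nonneg _
        simp only [NNReal.coe_one, mul_one]
        linarith
      have h5 : 1 ≤ Real.sqrt (2 * Real.pi * ((1 : NNReal) : ℝ)) := by
        rw [Real.one_le_sqrt]
        simp only [NNReal.coe_one, mul_one]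
        linarith [Real.pi_gt_three]
      have h6 : (Real.sqrt (2 * Real.pi * ((1 : NNReal) : ℝ)))⁻¹ ≤ 1 := inv_le_one_of_one_le₀ h5
      calc _ ≤ 1 * 1 := mul_le_mul h6 h4 (Real.exp_pos _).le zero_le_one
        _ = 1 := one_mul 1
    exact mul_le_of_le_one_left (by positivity) h3

theorem int_exp (t : ℝ) : ∫ a, Real.exp (t * a) ∂G1 = Real.exp (t ^ 2 / 2) := by
  have h := congrFun (ProbabilityTheory.mgf_id_gaussianReal (μ := 0) (v := 1)) t
  unfold ProbabilityTheory.mgf at h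
  unfold G1
  simp only [id] at h
  rw [h]
  congr 1
  simp

theorem integrable_exp (t : ℝ) : Integrable (fun a => Real.exp (t * a)) G1 :=
  ProbabilityTheory.integrable_exp_mul_gaussianReal t

/-- the first two regions -/
theorem triv_bound (k X : ℕ) (hX : 1 ≤ X) (n : ℕ) (b : ℝ) :
    ‖∑ x ∈ Finset.Icc X (2 * X), e (b * (x : ℝ) ^ k)‖ ^ n ≤ 2 ^ n * (X : ℝ) ^ n := by
  have hX' : (1 : ℝ) ≤ X := by exact_mod_cast hX
  have h1 : ‖∑ x ∈ Finset.Icc X (2 * X), e (b * (x : ℝ) ^ k)‖ ≤ 2 * X := by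
    refine (norm_sum_le _ _).trans ?_
    simp_rw [norm_e]
    rw [Finset.sum_const, Nat.card_Icc, nsmul_eq_mul, mul_one]
    have : 2 * X + 1 - X = X + 1 := by omega
    rw [this]
    push_cast
    linarith
  rw [← mul_pow]
  exact pow_le_pow_left₀ (norm_nonneg _) h1 n

theorem r_le_nr (r : ℕ) : r ≤ nr r := by
  unfold nr
  have : 4 * r * (r + 2) * 2 ^ (r + 2) = r * (4 * (r + 2) * 2 ^ (r + 2)) := by ring
  rw [this]
  exact Nat.le_mul_of_pos_right r (by positivity)

theorem pt_bound (r m k X : ℕ) (C L : ℝ) (hX : 1 ≤ X) (hL : L = Real.log X) (hL1 : 1 ≤ L)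
    (hr : 1 ≤ r) (hm : nr r ≤ 2 * m) (hC : 0 < C)
    (H : ∀ y : ℝ, (X : ℝ) ^ (-(k : ℝ)) ≤ |y| → |y| ≤ (X : ℝ) ^ (-(k : ℝ) + r) →
      ‖∑ x ∈ Finset.Icc X (2 * X), e (y * (x : ℝ) ^ k)‖ ≤
      C * ((X : ℝ) ^ (1 - 1 / (4 * ((r : ℝ) + 2) * 2 ^ (r + 2))) + (X : ℝ) ^ (1 - (k : ℝ)) / |y|))
    (a : ℝ) :
    ‖∑ x ∈ Finset.Icc X (2 * X), e (a * ((X : ℝ) ^ (-(k : ℝ) + r) / L) * (x : ℝ) ^ k)‖ ^ (2 * m) ≤
      (2 * max 1 C) ^ (2 * m) * (X : ℝ) ^ (2 * m - r) *
        (Real.exp ((r : ℝ) * a) + Real.exp (-(r : ℝ) * a)) +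
      (2 * max 1 C) ^ (2 * m) * (X : ℝ) ^ (2 * m - r) +
      2 * (2 * max 1 C) ^ (2 * m) * (X : ℝ) ^ (2 * m) * (1 + (a / (L / (X : ℝ) ^ r)) ^ 2)⁻¹ := by
  have hXr : (1 : ℝ) ≤ X := by exact_mod_cast hX
  have hX0 : (0 : ℝ) < X := by linarith
  have hL0 : 0 < L := by linarith
  have hrm : r ≤ 2 * m := le_trans (r_le_nr r) hm
  set n := 2 * m with hn
  set K : ℝ := (2 * max 1 C) ^ n with hK
  set W : ℝ := (X : ℝ) ^ (n - r) with hW
  set B : ℝ := (X : ℝ) ^ n with hB
  set a0 : ℝ := L / (X : ℝ) ^ r with ha0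
  have hXrp : (0 : ℝ) < (X : ℝ) ^ r := by positivity
  have ha0p : 0 < a0 := by positivity
  have hBW : B = W * (X : ℝ) ^ r := by
    rw [hB, hW, ← pow_add, Nat.sub_add_cancel hrm]
  have hW0 : 0 < W := by positivity
  have hB0 : 0 < B := by positivity
  have hK2 : (2 : ℝ) ^ n ≤ K := by
    rw [hK]
    refine pow_le_pow_left₀ (by norm_num) ?_ n
    have := le_max_left 1 C
    linarith
  have hKC : (2 * C) ^ n ≤ K := by
    rw [hK]
    refine pow_le_pow_left₀ (by positivity) ?_ n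
    have := le_max_right 1 C
    linarith
  have hK0 : 0 < K := lt_of_lt_of_le (by positivity) hK2
  have hT := triv_bound k X hX n (a * ((X : ℝ) ^ (-(k : ℝ) + r) / L))
  have hcau : 0 < (1 + (a / a0) ^ 2)⁻¹ := by positivity
  have hexp1 := Real.exp_pos ((r : ℝ) * a)
  have hexp2 := Real.exp_pos (-(r : ℝ) * a)
  have ht1 : 0 ≤ K * W * (Real.exp ((r : ℝ) * a) + Real.exp (-(r : ℝ) * a)) := by positivity
  have ht2 : 0 ≤ K * W := by positivity
  have ht3 : 0 ≤ 2 * K * B * (1 + (a / a0) ^ 2)⁻¹ := by positivity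
  have hexpL : Real.exp ((r : ℝ) * L) = (X : ℝ) ^ r := by
    rw [mul_comm, Real.exp_mul, hL, Real.exp_log hX0, Real.rpow_natCast]
  by_cases h1 : L < |a|
  · -- the tail
    have h2 : (X : ℝ) ^ r ≤ Real.exp ((r : ℝ) * a) + Real.exp (-(r : ℝ) * a) := by
      rw [← hexpL]
      rcases le_total 0 a with h | h
      · rw [abs_of_nonneg h] at h1
        have : Real.exp ((r : ℝ) * L) ≤ Real.exp ((r : ℝ) * a) :=
          Real.exp_le_exp.2 (mul_le_mul_of_nonneg_left h1.le (Nat.cast_nonneg r))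
        linarith
      · rw [abs_of_nonpos h] at h1
        have : Real.exp ((r : ℝ) * L) ≤ Real.exp (-(r : ℝ) * a) := by
          apply Real.exp_le_exp.2
          have := mul_le_mul_of_nonneg_left h1.le (Nat.cast_nonneg (α := ℝ) r)
          linarith
        linarith
    have h3 : 2 ^ n * B ≤ K * W * (Real.exp ((r : ℝ) * a) + Real.exp (-(r : ℝ) * a)) := by
      calc 2 ^ n * B ≤ K * B := mul_le_mul_of_nonneg_right hK2 hB0.le
        _ = K * W * (X : ℝ) ^ r := by rw [hBW]; ring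
        _ ≤ _ := mul_le_mul_of_nonneg_left h2 ht2
    linarith
  · push Not at h1
    by_cases h2 : |a| < a0
    · have h3 : (a / a0) ^ 2 ≤ 1 := by
        rw [← sq_abs, abs_div, abs_of_pos ha0p]
        have : |a| / a0 ≤ 1 := (div_le_one ha0p).2 h2.le
        have h4 : 0 ≤ |a| / a0 := by positivity
        nlinarith
      have h4 : 1 ≤ 2 * (1 + (a / a0) ^ 2)⁻¹ := by
        rw [← div_eq_mul_inv, le_div_iff₀ (by positivity)]
        linarith
      have h5 : 2 ^ n * B ≤ 2 * K * B * (1 + (a / a0) ^ 2)⁻¹ := by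
        calc 2 ^ n * B ≤ K * B := mul_le_mul_of_nonneg_right hK2 hB0.le
          _ = K * B * 1 := (mul_one _).symm
          _ ≤ K * B * (2 * (1 + (a / a0) ^ 2)⁻¹) := mul_le_mul_of_nonneg_left h4 (by positivity)
          _ = _ := by ring
      linarith
    · push Not at h2
      have hapos : 0 < |a| := lt_of_lt_of_le ha0p h2
      set y0 : ℝ := (X : ℝ) ^ (-(k : ℝ) + r) / L with hy0
      have hpow : (X : ℝ) ^ (-(k : ℝ) + r) = (X : ℝ) ^ (-(k : ℝ)) * (X : ℝ) ^ r := by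
        rw [Real.rpow_add hX0, Real.rpow_natCast]
      have hXk : 0 < (X : ℝ) ^ (-(k : ℝ)) := Real.rpow_pos_of_pos hX0 _
      have hy0p : 0 < y0 := by
        rw [hy0, hpow]
        positivity
      have hay : |a * y0| = |a| * y0 := by rw [abs_mul, abs_of_pos hy0p]
      have hlow : (X : ℝ) ^ (-(k : ℝ)) ≤ |a * y0| := by
        rw [hay]
        calc (X : ℝ) ^ (-(k : ℝ)) = a0 * y0 := by
              rw [ha0, hy0, hpow]
              field_simp
          _ ≤ |a| * y0 := mul_le_mul_of_nonneg_right h2 hy0p.le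
      have hupp : |a * y0| ≤ (X : ℝ) ^ (-(k : ℝ) + r) := by
        rw [hay]
        calc |a| * y0 ≤ L * y0 := mul_le_mul_of_nonneg_right h1 hy0p.le
          _ = _ := by
              rw [hy0]
              field_simp
      have hS := H (a * y0) hlow hupp
      set η : ℝ := 1 / (4 * ((r : ℝ) + 2) * 2 ^ (r + 2)) with hη
      have hη0 : 0 < η := by positivity
      set u : ℝ := a0 / |a| with hu
      have hu0 : 0 < u := by positivity
      have hu1 : u ≤ 1 := (div_le_one hapos).2 h2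
      have e1 : (X : ℝ) ^ (1 - (k : ℝ)) / |a * y0| = X * u := by
        rw [hay, hu, ha0, hy0, hpow, Real.rpow_sub hX0, Real.rpow_one, Real.rpow_neg hX0.le]
        have hXk' : (X : ℝ) ^ (k : ℝ) ≠ 0 := (Real.rpow_pos_of_pos hX0 _).ne'
        field_simp
      have e2 : (X : ℝ) ^ (1 - η) = X * (X : ℝ) ^ (-η) := by
        rw [sub_eq_add_neg, Real.rpow_add hX0, Real.rpow_one]
      rw [e1, e2] at hS
      set v : ℝ := (X : ℝ) ^ (-η) with hv
      have hv0 : 0 < v := Real.rpow_pos_of_pos hX0 _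
      have hηn : (r : ℝ) ≤ η * n := by
        have h3 : ((nr r : ℕ) : ℝ) ≤ n := by exact_mod_cast hm
        have h4 : ((nr r : ℕ) : ℝ) = 4 * r * (r + 2) * 2 ^ (r + 2) := by
          unfold nr
          push_cast
          ring
        rw [h4] at h3
        rw [hη, one_div, inv_mul_eq_div, le_div_iff₀ (by positivity)]
        linarith
      have hvn : v ^ n ≤ ((X : ℝ) ^ r)⁻¹ := by
        rw [hv, ← Real.rpow_natCast ((X : ℝ) ^ (-η)) n, ← Real.rpow_mul hX0.le,
          ← Real.rpow_natCast (X : ℝ) r, ← Real.rpow_neg hX0.le]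
        apply Real.rpow_le_rpow_of_exponent_le hXr
        linarith
      have hun : u ^ n ≤ 2 * (1 + (a / a0) ^ 2)⁻¹ := by
        have hn2 : 2 ≤ n := by omega
        have h3 : u ^ n ≤ u ^ 2 := pow_le_pow_of_le_one hu0.le hu1 hn2
        refine h3.trans ?_
        rw [← div_eq_mul_inv, le_div_iff₀ (by positivity)]
        have h4 : (a / a0) ^ 2 = (u ^ 2)⁻¹ := by
          rw [hu, ← sq_abs (a / a0), abs_div, abs_of_pos ha0p, ← inv_pow, inv_div]
        rw [h4]
        have h5 : u ^ 2 * (u ^ 2)⁻¹ = 1 := mul_inv_cancel₀ (by positivity)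
        rw [mul_add, h5]
        nlinarith
      have h6 : ‖∑ x ∈ Finset.Icc X (2 * X), e (a * y0 * (x : ℝ) ^ k)‖ ^ n ≤
          K * B * (v ^ n + u ^ n) := by
        calc _ ≤ (C * (X * v + X * u)) ^ n := pow_le_pow_left₀ (norm_nonneg _) hS n
          _ = C ^ n * B * (v + u) ^ n := by rw [hB, ← mul_add, mul_pow, mul_pow]; ring
          _ ≤ C ^ n * B * (2 ^ (n - 1) * (v ^ n + u ^ n)) :=
              mul_le_mul_of_nonneg_left (add_pow_le hv0.le hu0.le n) (by positivity)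
          _ ≤ C ^ n * B * (2 ^ n * (v ^ n + u ^ n)) := by
              have h7 : (2 : ℝ) ^ (n - 1) ≤ 2 ^ n :=
                pow_le_pow_right₀ (by norm_num) (Nat.sub_le n 1)
              gcongr
          _ = (2 * C) ^ n * (B * (v ^ n + u ^ n)) := by rw [mul_pow]; ring
          _ ≤ K * (B * (v ^ n + u ^ n)) := mul_le_mul_of_nonneg_right hKC (by positivity)
          _ = _ := by ring
      have h8 : K * B * v ^ n ≤ K * W := by
        calc K * B * v ^ n ≤ K * B * ((X : ℝ) ^ r)⁻¹ :=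
              mul_le_mul_of_nonneg_left hvn (by positivity)
          _ = K * W := by rw [hBW]; field_simp
      have h9 : K * B * u ^ n ≤ 2 * K * B * (1 + (a / a0) ^ 2)⁻¹ := by
        calc K * B * u ^ n ≤ K * B * (2 * (1 + (a / a0) ^ 2)⁻¹) :=
              mul_le_mul_of_nonneg_left hun (by positivity)
          _ = _ := by ring
      rw [mul_add] at h6
      linarith

theorem dmv (h : S_DVDC) : S_DMV := by
  intro r m k hr hk hm
  obtain ⟨C, hC, X1, H⟩ := h r k hr hk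
  set K : ℝ := (2 * max 1 C) ^ (2 * m) with hK
  have hK0 : 0 < K := by
    have : 0 < max 1 C := lt_max_of_lt_left one_pos
    positivity
  refine ⟨K * (2 * Real.exp ((r : ℝ) ^ 2 / 2) + 1 + 2 * Real.pi), by positivity, max X1 3,
    fun X y hX hy => ?_⟩
  have hX1 : X1 ≤ X := le_trans (le_max_left _ _) hX
  have hX3 : 3 ≤ X := le_trans (le_max_right _ _) hX
  have hX1' : 1 ≤ X := by omega
  have hXr : (3 : ℝ) ≤ X := by exact_mod_cast hX3
  have hX0 : (0 : ℝ) < X := by linarith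
  set L : ℝ := Real.log X with hL
  have hL1 : 1 ≤ L := by
    rw [hL, Real.le_log_iff_exp_le hX0]
    exact Real.exp_one_lt_three.le.trans hXr
  have hL0 : 0 < L := by linarith
  have hrm : r ≤ 2 * m := le_trans (r_le_nr r) hm
  have hXk : 0 < (X : ℝ) ^ (-(k : ℝ) + r) := Real.rpow_pos_of_pos hX0 _
  have hmono := md_mono m k X y ((X : ℝ) ^ (-(k : ℝ) + r) / L) (by positivity) hy
  refine hmono.trans ?_
  set W : ℝ := (X : ℝ) ^ (2 * m - r) with hW
  set B : ℝ := (X : ℝ) ^ (2 * m) with hB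
  have hBW : B = W * (X : ℝ) ^ r := by
    rw [hB, hW, ← pow_add, Nat.sub_add_cancel hrm]
  have hW0 : 0 < W := by positivity
  have hB0 : 0 < B := by positivity
  have hXrp : (0 : ℝ) < (X : ℝ) ^ r := by positivity
  have ha0 : 0 < L / (X : ℝ) ^ r := by positivity
  have hpt := pt_bound r m k X C L hX1' hL hL1 hr hm hC (fun y hy1 hy2 => H X y hX1 hy1 hy2)
  have hcm : Measurable fun a : ℝ => (1 + (a / (L / (X : ℝ) ^ r)) ^ 2)⁻¹ := by fun_prop
  have hci : Integrable (fun a : ℝ => (1 + (a / (L / (X : ℝ) ^ r)) ^ 2)⁻¹) G1 := by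
    refine Integrable.mono' (integrable_const (1 : ℝ)) hcm.aestronglyMeasurable ?_
    refine Filter.Eventually.of_forall fun a => ?_
    rw [Real.norm_of_nonneg (by positivity)]
    apply inv_le_one_of_one_le₀
    have := sq_nonneg (a / (L / (X : ℝ) ^ r))
    linarith
  have hi1 : Integrable (fun a : ℝ => K * W * (Real.exp ((r : ℝ) * a) + Real.exp (-(r : ℝ) * a)))
      G1 := ((integrable_exp _).add (integrable_exp _)).const_mul _
  have hi2 : Integrable (fun _ : ℝ => K * W) G1 := integrable_const _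
  have hi12 : Integrable (fun a : ℝ => K * W * (Real.exp ((r : ℝ) * a) +
      Real.exp (-(r : ℝ) * a)) + K * W) G1 := hi1.add hi2
  have hi3 : Integrable (fun a : ℝ => 2 * K * B * (1 + (a / (L / (X : ℝ) ^ r)) ^ 2)⁻¹) G1 :=
    hci.const_mul _
  have hmain : MD m k X ((X : ℝ) ^ (-(k : ℝ) + r) / L) ≤
      ∫ a, (K * W * (Real.exp ((r : ℝ) * a) + Real.exp (-(r : ℝ) * a)) + K * W +
        2 * K * B * (1 + (a / (L / (X : ℝ) ^ r)) ^ 2)⁻¹) ∂G1 := by
    unfold MD
    refine integral_mono_of_nonneg ?_ (hi12.add hi3) ?_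
    · exact Filter.Eventually.of_forall fun a => by positivity
    · exact Filter.Eventually.of_forall fun a => hpt a
  refine hmain.trans ?_
  rw [integral_add hi12 hi3, integral_add hi1 hi2, integral_const, probReal_univ, one_smul,
    integral_const_mul, integral_const_mul, integral_add (integrable_exp _) (integrable_exp _),
    int_exp, int_exp, neg_sq]
  have h1 := int_cauchy (L / (X : ℝ) ^ r) ha0
  have h2 : 2 * K * B * ∫ a, (1 + (a / (L / (X : ℝ) ^ r)) ^ 2)⁻¹ ∂G1 ≤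
      K * (2 * Real.pi) * L * W := by
    calc _ ≤ 2 * K * B * (Real.pi * (L / (X : ℝ) ^ r)) :=
          mul_le_mul_of_nonneg_left h1 (by positivity)
      _ = _ := by
        rw [hBW]
        field_simp
  have h3 : K * W * (Real.exp ((r : ℝ) ^ 2 / 2) + Real.exp ((r : ℝ) ^ 2 / 2)) + K * W ≤
      K * (2 * Real.exp ((r : ℝ) ^ 2 / 2) + 1) * L * W := by
    have h4 : 0 ≤ K * W * (2 * Real.exp ((r : ℝ) ^ 2 / 2) + 1) := by positivity
    have h5 := mul_le_mul_of_nonneg_left hL1 h4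
    linarith
  calc _ ≤ K * (2 * Real.exp ((r : ℝ) ^ 2 / 2) + 1) * L * W + K * (2 * Real.pi) * L * W :=
        add_le_add h3 h2
    _ = _ := by ring

end Pool.Agent.N618.KWDmv

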