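import Pool.Agent.N699.AO.Stm

/-!
# AO/SERN1: the bound for the number of pairs with congruent values
-/

set_option autoImplicit false

namespace Pool.Agent.N618.AO

open Finset Pool.Agent.N699.AO

/-- a set of natural numbers of small diameter, all congruent to each other -/
theorem card_le (S : Finset ℕ) (m : ℕ) (hm : 1 ≤ m) (T : ℝ) (hT : 0 ≤ T)
    (h : ∀ a ∈ S, ∀ b ∈ S, (m : ℤ) ∣ (a : ℤ) - b ∧ (a : ℝ) - b ≤ T) : (S.card : ℝ) ≤ T / m + 1 := by
  have hm0 : (0 : ℝ) < m := by exact_mod_cast hm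
  rcases S.eq_empty_or_nonempty with rfl | hne
  · simp only [card_empty, Nat.cast_zero]
    positivity
  · set a₀ := S.min' hne with ha₀
    have h0 : a₀ ∈ S := S.min'_mem hne
    have hle : ∀ a ∈ S, a₀ ≤ a := fun a ha => S.min'_le a ha
    have hdv : ∀ a ∈ S, m ∣ a - a₀ := fun a ha => by
      have h1 := (h a ha a₀ h0).1
      rw [← Nat.cast_sub (hle a ha)] at h1
      exact_mod_cast h1
    have hcard : S.card ≤ (range (⌊T / m⌋₊ + 1)).card := by
      refine card_le_card_of_injOn (fun a => (a - a₀) / m) ?_ ?_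
      · intro a ha
        have ha' : a ∈ S := ha
        rw [mem_coe, mem_range, Nat.lt_succ_iff]
        apply Nat.le_floor
        rw [le_div_iff₀ hm0]
        have h1 : (a - a₀) / m * m = a - a₀ := Nat.div_mul_cancel (hdv a ha')
        have h2 : (((a - a₀) / m : ℕ) : ℝ) * m = ((a - a₀ : ℕ) : ℝ) := by exact_mod_cast h1
        rw [h2, Nat.cast_sub (hle a ha')]
        exact (h a ha' a₀ h0).2
      · intro a ha b hb hab
        have ha' : a ∈ S := ha
        have hb' : b ∈ S := hb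
        have h1 : (a - a₀) / m * m = a - a₀ := Nat.div_mul_cancel (hdv a ha')
        have h2 : (b - a₀) / m * m = b - a₀ := Nat.div_mul_cancel (hdv b hb')
        have h3 : (a - a₀) / m = (b - a₀) / m := hab
        rw [h3, h2] at h1
        have h4 := hle a ha'
        have h5 := hle b hb'
        omega
    rw [card_range] at hcard
    have h6 : (S.card : ℝ) ≤ (⌊T / m⌋₊ : ℝ) + 1 := by exact_mod_cast hcard
    have h7 : (⌊T / m⌋₊ : ℝ) ≤ T / m := Nat.floor_le (by positivity)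
    linarith

theorem mem_SA {k M a : ℕ} : a ∈ SA k M ↔ 20 * M < 2 ^ k * a ∧ 2 ^ k * a ≤ 21 * M := by
  unfold SA
  rw [mem_filter, mem_range]
  constructor
  · exact fun h => h.2
  · refine fun h => ⟨?_, h⟩
    have h1 : 1 ≤ 2 ^ k := Nat.one_le_two_pow
    have h2 : a ≤ 2 ^ k * a := Nat.le_mul_of_pos_left a (by omega)
    omega

theorem diam {k M a b : ℕ} (ha : a ∈ SA k M) (hb : b ∈ SA k M) : (a : ℝ) - b ≤ (M : ℝ) / 2 ^ k := by
  rw [mem_SA] at ha hb
  have h1 : (2 : ℝ) ^ k * a ≤ 21 * M := by exact_mod_cast ha.2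
  have h2 : 20 * (M : ℝ) < 2 ^ k * b := by exact_mod_cast hb.1
  rw [le_div_iff₀ (by positivity)]
  nlinarith

theorem card_SA (k M : ℕ) : ((SA k M).card : ℝ) ≤ (M : ℝ) / 2 ^ k + 1 := by
  have h := card_le (SA k M) 1 le_rfl ((M : ℝ) / 2 ^ k) (by positivity)
    (fun a ha b hb => ⟨by simp, diam ha hb⟩)
  simpa using h

/-- SERN1: the bound for `N_Q` -/
theorem t_SERN1 : Pool.Agent.N699.AO.SERN1 := by
  intro k M Q hk hQ K hK
  classical
  set q := ordCompl[2] Q with hq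
  have hq0 : 0 < q := Nat.ordCompl_pos 2 (by omega)
  have hqQ : q ∣ Q := Nat.ordCompl_dvd Q 2
  have hodd : ¬ 2 ∣ q := Nat.not_dvd_ordCompl Nat.prime_two (by omega)
  have hcop : Nat.Coprime q 2 := ((Nat.Prime.coprime_iff_not_dvd Nat.prime_two).2 hodd).symm
  have hT : (0 : ℝ) ≤ (M : ℝ) / 2 ^ k := by positivity
  have hK1 : (M : ℝ) / 2 ^ k ≤ K := by linarith
  have hK0 : 0 ≤ K := hT.trans hK1
  let F : ℕ × ℕ → Finset (ℕ × ℕ) := fun de => (SA k M ×ˢ SA k M).filter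
    (fun p => (de.1 : ℤ) ∣ (p.1 : ℤ) - p.2 ∧ (de.2 : ℤ) ∣ 10 * 2 ^ k * ((p.1 : ℤ) + p.2) + 1)
  have hsub : (SA k M ×ˢ SA k M).filter (fun p => (Q : ℤ) ∣ gz k p.1 - gz k p.2) ⊆
      q.divisorsAntidiagonal.biUnion F := by
    intro p hp
    rw [mem_filter] at hp
    obtain ⟨hp1, hp2⟩ := hp
    have e1 : gz k p.1 - gz k p.2 =
        2 ^ (k + 1) * (((p.1 : ℤ) - p.2) * (10 * 2 ^ k * ((p.1 : ℤ) + p.2) + 1)) := by
      unfold gz; ring
    have h1 : (q : ℤ) ∣ 2 ^ (k + 1) * (((p.1 : ℤ) - p.2) * (10 * 2 ^ k * ((p.1 : ℤ) + p.2) + 1)) := by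
      rw [← e1]
      exact (Int.natCast_dvd_natCast.2 hqQ).trans hp2
    have h2 : IsCoprime (q : ℤ) (2 ^ (k + 1)) := by
      have : IsCoprime (q : ℤ) ((2 : ℕ) : ℤ) := Nat.isCoprime_iff_coprime.2 hcop
      exact this.pow_right
    have h3 := h2.dvd_of_dvd_mul_left h1
    obtain ⟨d, e, hd, he, hde⟩ := exists_dvd_and_dvd_of_dvd_mul h3
    rw [mem_biUnion]
    refine ⟨(d.natAbs, e.natAbs), ?_, ?_⟩
    · rw [Nat.mem_divisorsAntidiagonal]
      refine ⟨?_, hq0.ne'⟩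
      have := congrArg Int.natAbs hde
      rw [Int.natAbs_mul, Int.natAbs_natCast] at this
      exact this.symm
    · rw [mem_filter]
      refine ⟨hp1, ?_, ?_⟩
      · exact Int.natAbs_dvd.2 hd
      · exact Int.natAbs_dvd.2 he
  have hF : ∀ de ∈ q.divisorsAntidiagonal,
      ((F de).card : ℝ) ≤ K * (K / (Nat.lcm de.1 de.2 : ℕ) + 1) := by
    rintro ⟨d, e⟩ hde
    rw [Nat.mem_divisorsAntidiagonal] at hde
    have hd0 : 0 < d := Nat.pos_of_ne_zero fun h => hde.2 (by rw [← hde.1]; simp [h])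
    have he0 : 0 < e := Nat.pos_of_ne_zero fun h => hde.2 (by rw [← hde.1]; simp [h])
    have hl : 1 ≤ Nat.lcm d e := Nat.lcm_pos hd0 he0
    have hfib : ∀ a ∈ SA k M, (((F (d, e)).filter (fun p => p.1 = a)).card : ℝ) ≤
        K / (Nat.lcm d e : ℕ) + 1 := by
      intro a ha
      have h1 : ((F (d, e)).filter (fun p => p.1 = a)).card ≤ ((SA k M).filter (fun a' : ℕ =>
          (d : ℤ) ∣ (a : ℤ) - a' ∧ (e : ℤ) ∣ 10 * 2 ^ k * ((a : ℤ) + a') + 1)).card := by
        refine card_le_card_of_injOn Prod.snd ?_ ?_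
        · rintro ⟨x, y⟩ hxy
          have hxy' := hxy
          rw [mem_coe, mem_filter, mem_filter, mem_product] at hxy'
          obtain ⟨⟨⟨-, h2⟩, h3, h4⟩, rfl⟩ := hxy'
          rw [mem_coe, mem_filter]
          exact ⟨h2, h3, h4⟩
        · rintro ⟨x, y⟩ hxy ⟨x', y'⟩ hxy' h
          rw [mem_coe, mem_filter] at hxy hxy'
          have e2 : x = a := hxy.2
          have e3 : x' = a := hxy'.2
          have e4 : y = y' := h
          rw [e2, e3, e4]
      have h2 := card_le ((SA k M).filter (fun a' : ℕ =>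
          (d : ℤ) ∣ (a : ℤ) - a' ∧ (e : ℤ) ∣ 10 * 2 ^ k * ((a : ℤ) + a') + 1)) (Nat.lcm d e) hl
          ((M : ℝ) / 2 ^ k) hT (by
        intro x hx y hy
        rw [mem_filter] at hx hy
        refine ⟨?_, diam hx.1 hy.1⟩
        obtain ⟨hx1, hx2, hx3⟩ := hx
        obtain ⟨hy1, hy2, hy3⟩ := hy
        have h3 : (d : ℤ) ∣ (x : ℤ) - y := by
          have := dvd_sub hy2 hx2
          have e5 : (a : ℤ) - y - (a - x) = x - y := by ring
          rwa [e5] at this
        have h4 : (e : ℤ) ∣ 10 * 2 ^ k * ((x : ℤ) - y) := by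
          have := dvd_sub hx3 hy3
          have e5 : (10 * 2 ^ k * ((a : ℤ) + x) + 1) - (10 * 2 ^ k * ((a : ℤ) + y) + 1) =
            10 * 2 ^ k * ((x : ℤ) - y) := by ring
          rwa [e5] at this
        have h5 : IsCoprime (e : ℤ) (10 * 2 ^ k) := by
          obtain ⟨c, hc⟩ := hx3
          refine ⟨c, -((a : ℤ) + x), ?_⟩
          linear_combination -hc
        have h6 := h5.dvd_of_dvd_mul_left h4
        exact Int.natCast_dvd.2 (Nat.lcm_dvd (Int.natCast_dvd.1 h3) (Int.natCast_dvd.1 h6)))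
      have hl0 : (0 : ℝ) < (Nat.lcm d e : ℕ) := by exact_mod_cast hl
      have h3 : (M : ℝ) / 2 ^ k / (Nat.lcm d e : ℕ) ≤ K / (Nat.lcm d e : ℕ) :=
        div_le_div_of_nonneg_right hK1 hl0.le
      have h4 : (((F (d, e)).filter (fun p => p.1 = a)).card : ℝ) ≤ (((SA k M).filter (fun a' : ℕ =>
          (d : ℤ) ∣ (a : ℤ) - a' ∧ (e : ℤ) ∣ 10 * 2 ^ k * ((a : ℤ) + a') + 1)).card : ℝ) := by
        exact_mod_cast h1
      linarith
    have hmaps : ∀ p ∈ F (d, e), p.1 ∈ SA k M := fun p hp => by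
      rw [mem_filter, mem_product] at hp
      exact hp.1.1
    have hsum := card_eq_sum_card_fiberwise hmaps
    have hbnd : (0 : ℝ) ≤ K / (Nat.lcm d e : ℕ) + 1 := by positivity
    calc ((F (d, e)).card : ℝ) = ∑ a ∈ SA k M, (((F (d, e)).filter (fun p => p.1 = a)).card : ℝ) := by
          rw [hsum]; push_cast; rfl
      _ ≤ ∑ a ∈ SA k M, (K / (Nat.lcm d e : ℕ) + 1) := sum_le_sum hfib
      _ = ((SA k M).card : ℝ) * (K / (Nat.lcm d e : ℕ) + 1) := by rw [sum_const, nsmul_eq_mul]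
      _ ≤ K * (K / (Nat.lcm d e : ℕ) + 1) :=
          mul_le_mul_of_nonneg_right ((card_SA k M).trans hK) hbnd
  have h1 : NQ k M Q ≤ ∑ de ∈ q.divisorsAntidiagonal, (F de).card :=
    (card_le_card hsub).trans card_biUnion_le
  calc (NQ k M Q : ℝ) ≤ ((∑ de ∈ q.divisorsAntidiagonal, (F de).card : ℕ) : ℝ) := by
        exact_mod_cast h1
    _ = ∑ de ∈ q.divisorsAntidiagonal, ((F de).card : ℝ) := by push_cast; rfl
    _ ≤ ∑ p ∈ q.divisorsAntidiagonal, K * (K / (Nat.lcm p.1 p.2 : ℕ) + 1) := sum_le_sum hF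

end Pool.Agent.N618.AO

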