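import Pool.Agent.N709.UM.Stm2

/-!
# UM2/CJ: commutators with all elements converge
-/

set_option autoImplicit false

open Filter Topology

universe u

namespace Pool.Agent.N618.UM2

open Pool.Agent.N709.UM

theorem cj : Pool.Agent.N709.UM.Cj.{u} := by
  intro G _ _ _ ρ hρ y t ht hinv q hq hcom g
  have hmul := hρ.pn.mul
  have hin := hρ.pn.inv
  rw [tendsto_iff_forall_eventually_mem]
  intro U hU
  obtain ⟨r, hr, hrU⟩ := hρ.gen U hU
  have hnb : {m : G | ρ (g * m * g⁻¹) < r / 2} ∈ 𝓝 (1 : G) := by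
    have hc : Continuous fun m : G => ρ (g * m * g⁻¹) :=
      hρ.cont.comp ((continuous_const.mul continuous_id).mul continuous_const)
    refine (isOpen_lt hc continuous_const).mem_nhds ?_
    simp only [Set.mem_ofPred_eq, mul_one, mul_inv_cancel, hρ.pn.one]
    positivity
  obtain ⟨r2, hr2, hr2U⟩ := hρ.gen _ hnb
  have hop : IsOpen {x : G | ρ (x⁻¹ * g) < r2 / 8} :=
    isOpen_lt (hρ.cont.comp (continuous_inv.mul continuous_const)) continuous_const
  obtain ⟨i, hi⟩ := hq.exists_mem_open hop ⟨g, by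
    simp only [Set.mem_ofPred_eq, inv_mul_cancel, hρ.pn.one]; positivity⟩
  have hi' : ρ ((q i)⁻¹ * g) < r2 / 8 := hi
  set v := (q i)⁻¹ * g with hv
  have hev : ∀ᶠ k in atTop, t k < min (r / 2) (r2 / 2) :=
    ht.eventually (gt_mem_nhds (lt_min (by positivity) (by positivity)))
  filter_upwards [hev, eventually_ge_atTop i] with k hk hik
  have hk1 : t k < r / 2 := hk.trans_le (min_le_left _ _)
  have hk2 : t k < r2 / 2 := hk.trans_le (min_le_right _ _)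
  apply hrU
  have e1 : ρ (g * y k * g⁻¹ * (y k)⁻¹) = ρ (y k * g * (y k)⁻¹ * g⁻¹) := by
    rw [← hin]
    congr 1
    group
  rw [e1]
  have e2 : y k * g * (y k)⁻¹ * g⁻¹ = (y k * q i * (y k)⁻¹ * (q i)⁻¹) *
      (g * (v⁻¹ * (y k * v * (y k)⁻¹ * v⁻¹) * v) * g⁻¹) := by
    rw [hv]
    group
  have h1 : ρ (y k * v * (y k)⁻¹ * v⁻¹) ≤ 2 * ρ v + t k := by
    have h2 := hmul (y k * v * (y k)⁻¹) v⁻¹
    have h3 := hinv k v
    rw [hin v] at h2
    linarith
  have h4 : ρ (v⁻¹ * (y k * v * (y k)⁻¹ * v⁻¹) * v) < r2 := by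
    have h5 := hmul (v⁻¹ * (y k * v * (y k)⁻¹ * v⁻¹)) v
    have h6 := hmul v⁻¹ (y k * v * (y k)⁻¹ * v⁻¹)
    rw [hin v] at h6
    linarith
  have h7 : ρ (g * (v⁻¹ * (y k * v * (y k)⁻¹ * v⁻¹) * v) * g⁻¹) < r / 2 := hr2U _ h4
  have h8 := hcom i k hik
  have h9 := hmul (y k * q i * (y k)⁻¹ * (q i)⁻¹)
    (g * (v⁻¹ * (y k * v * (y k)⁻¹ * v⁻¹) * v) * g⁻¹)
  rw [e2]
  linarith

end Pool.Agent.N618.UM2

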